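import Pool.Agent.N728.QG.Def
import Pool.Agent.N999.QL.B2

set_option autoImplicit false

/-! # Project QG (helper728), subtask B2: functions of `v` with small integrals, abstract weight (helper271)

The template is `Pool/Agent/N999/QL/B2.lean` (helper999). -/

namespace Pool.Agent.N271.QG

open Finset MeasureTheory Pool.Agent.N728.QL Pool.Agent.N728.QG
open Pool.Agent.N999.QL (params box_le Dv_dvd Dv_lt cop_of_dvd_PP sqrt_comb MJ_sum)

noncomputable section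

/-- the orbit weight -/
def ph (q u0 v0 T K B : ℕ) (g : ℝ → ℝ) (u v : ℕ) : ℝ :=
  if u ≤ T ∧ u ≡ u0 [MOD q] ∧ v ≡ v0 [MOD q] ∧ v ≤ K * B then g (Real.log v) / 2 else 0

/-- the sum over one class of the window -/
theorem class_sum {q u0 v0 T K B w y M j x t α : ℕ} {ρ : ℝ} {g : ℝ → ℝ} (hq : 1 ≤ q) (hqw : q ≤ w)
    (hM : M ∣ PP w y) (hM1 : 1 ≤ M) (hρ : 1 < ρ) (hK : 1 ≤ K) (hB : 1 ≤ B)
    (hg : ∀ s, Real.log ((K : ℝ) * (B : ℝ)) < s → g s = 0)
    (hx : x ∈ Icc 1 ⌊(T : ℝ) / ρ ^ (j + 1)⌋₊) (ht : 1 ≤ t) :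
    (∑ m ∈ (Dv ρ M j).filter (fun m => m ≡ α [MOD q]), ph q u0 v0 T K B g (m * x) (M / m * t)) ^ 2 ≤
      (1 / 4) * (∑ m ∈ (Dv ρ M j).filter (fun m => m ≡ α [MOD q]),
        g (Real.log M + Real.log t - Real.log m)) ^ 2 := by
  classical
  set D := (Dv ρ M j).filter (fun m => m ≡ α [MOD q]) with hD
  have hρj : 0 < ρ ^ (j + 1) := by positivity
  have hpt : ∀ m ∈ D, ph q u0 v0 T K B g (m * x) (M / m * t) =
      if (m * x ≡ u0 [MOD q] ∧ M / m * t ≡ v0 [MOD q]) then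
        g (Real.log M + Real.log t - Real.log m) / 2 else 0 := by
    intro m hm
    have hmD := (mem_filter.1 hm).1
    have hmM := Dv_dvd hmD
    have hm1 : 1 ≤ m := Nat.pos_of_dvd_of_pos hmM hM1
    have hmr : (0 : ℝ) < m := by exact_mod_cast hm1
    have hMr : (0 : ℝ) < M := by exact_mod_cast hM1
    have htr : (0 : ℝ) < t := by exact_mod_cast ht
    have hmx : m * x ≤ T := by
      rw [mem_Icc] at hx
      have h1 : (x : ℝ) ≤ (T : ℝ) / ρ ^ (j + 1) :=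
        le_trans (by exact_mod_cast hx.2) (Nat.floor_le (by positivity))
      have h2 : (m : ℝ) * x ≤ T := by
        have h3 := (Dv_lt hM1 hρ hmD).le
        have h4 : (x : ℝ) * ρ ^ (j + 1) ≤ T := by
          rw [le_div_iff₀ hρj] at h1
          exact h1
        have h5 : (m : ℝ) * x ≤ ρ ^ (j + 1) * x := mul_le_mul_of_nonneg_right h3 (Nat.cast_nonneg x)
        linarith
      exact_mod_cast h2
    have hlog : Real.log ((M / m * t : ℕ) : ℝ) = Real.log M + Real.log t - Real.log m := by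
      rw [Nat.cast_mul, Nat.cast_div hmM hmr.ne', Real.log_mul (by positivity) htr.ne',
        Real.log_div hMr.ne' hmr.ne']
      ring
    unfold ph
    by_cases hP : m * x ≡ u0 [MOD q] ∧ M / m * t ≡ v0 [MOD q]
    · rw [if_pos hP]
      by_cases h4 : M / m * t ≤ K * B
      · rw [if_pos ⟨hmx, hP.1, hP.2, h4⟩, hlog]
      · rw [if_neg (fun h => h4 h.2.2.2)]
        have h5 : Real.log ((K : ℝ) * (B : ℝ)) < Real.log M + Real.log t - Real.log m := by
          rw [← hlog]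
          apply Real.log_lt_log
          · have h6 : (1 : ℝ) ≤ B := by exact_mod_cast hB
            have h7 : (1 : ℝ) ≤ K := by exact_mod_cast hK
            positivity
          · have : K * B < M / m * t := not_le.1 h4
            exact_mod_cast this
        rw [hg _ h5]
        ring
    · rw [if_neg hP, if_neg]
      intro h
      exact hP ⟨h.2.1, h.2.2.1⟩
  rw [sum_congr rfl hpt]
  have hinv : ∀ m ∈ D, ∀ m' ∈ D, (m * x ≡ u0 [MOD q] ∧ M / m * t ≡ v0 [MOD q]) →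
      (m' * x ≡ u0 [MOD q] ∧ M / m' * t ≡ v0 [MOD q]) := by
    intro m hm m' hm' hP
    have hmM := Dv_dvd (mem_filter.1 hm).1
    have hmM' := Dv_dvd (mem_filter.1 hm').1
    have hmm : m ≡ m' [MOD q] := ((mem_filter.1 hm).2).trans ((mem_filter.1 hm').2).symm
    have hdd : M / m ≡ M / m' [MOD q] := by
      have h1 : m * (M / m) ≡ m * (M / m') [MOD q] := by
        have e1 : m * (M / m) = M := Nat.mul_div_cancel' hmM
        have e2 : m' * (M / m') = M := Nat.mul_div_cancel' hmM'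
        calc m * (M / m) = m' * (M / m') := by rw [e1, e2]
          _ ≡ m * (M / m') [MOD q] := (hmm.symm.mul_right _)
      exact Nat.ModEq.cancel_left_of_coprime (cop_of_dvd_PP hq hqw (hmM.trans hM)) h1
    exact ⟨(hmm.symm.mul_right x).trans hP.1, (hdd.symm.mul_right t).trans hP.2⟩
  by_cases hex : ∃ m ∈ D, (m * x ≡ u0 [MOD q] ∧ M / m * t ≡ v0 [MOD q])
  · obtain ⟨m0, hm0, hP0⟩ := hex
    have e : ∑ m ∈ D, (if (m * x ≡ u0 [MOD q] ∧ M / m * t ≡ v0 [MOD q]) then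
        g (Real.log M + Real.log t - Real.log m) / 2 else 0) =
        (∑ m ∈ D, g (Real.log M + Real.log t - Real.log m)) / 2 := by
      rw [sum_div]
      refine sum_congr rfl fun m hm => ?_
      rw [if_pos (hinv m0 hm0 m hm hP0)]
    rw [e]
    apply le_of_eq
    ring
  · have e : ∑ m ∈ D, (if (m * x ≡ u0 [MOD q] ∧ M / m * t ≡ v0 [MOD q]) then
        g (Real.log M + Real.log t - Real.log m) / 2 else 0) = 0 := by
      apply sum_eq_zero
      intro m hm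
      rw [if_neg (fun h => hex ⟨m, hm, h⟩)]
    rw [e, zero_pow (by norm_num)]
    positivity

/-- the sum over the window -/
theorem window_sum {q u0 v0 T K B w y M j x t : ℕ} {ρ : ℝ} {g : ℝ → ℝ} (hq : 1 ≤ q) (hqw : q ≤ w)
    (hM : M ∣ PP w y) (hM1 : 1 ≤ M) (hρ : 1 < ρ) (hK : 1 ≤ K) (hB : 1 ≤ B)
    (hg : ∀ s, Real.log ((K : ℝ) * (B : ℝ)) < s → g s = 0)
    (hx : x ∈ Icc 1 ⌊(T : ℝ) / ρ ^ (j + 1)⌋₊) (ht : 1 ≤ t) :
    (∑ m ∈ Dv ρ M j, ph q u0 v0 T K B g (m * x) (M / m * t)) ^ 2 ≤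
      (q / 4) * ∑ α ∈ range q, (∑ m ∈ (Dv ρ M j).filter (fun m => m ≡ α [MOD q]),
        g (Real.log M + Real.log t - Real.log m)) ^ 2 := by
  classical
  have e : ∑ m ∈ Dv ρ M j, ph q u0 v0 T K B g (m * x) (M / m * t) =
      ∑ α ∈ range q, ∑ m ∈ (Dv ρ M j).filter (fun m => m ≡ α [MOD q]),
        ph q u0 v0 T K B g (m * x) (M / m * t) := by
    rw [← sum_fiberwise_of_maps_to (s := Dv ρ M j) (t := range q) (g := fun m => m % q)
      (fun m _ => mem_range.2 (Nat.mod_lt _ hq))]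
    refine sum_congr rfl fun α hα => ?_
    apply sum_congr _ (fun _ _ => rfl)
    ext m
    simp only [mem_filter, and_congr_right_iff]
    intro _
    unfold Nat.ModEq
    rw [Nat.mod_eq_of_lt (mem_range.1 hα)]
  rw [e]
  have hcs := sq_sum_le_card_mul_sum_sq (s := range q)
    (f := fun α => ∑ m ∈ (Dv ρ M j).filter (fun m => m ≡ α [MOD q]),
        ph q u0 v0 T K B g (m * x) (M / m * t))
  rw [card_range] at hcs
  refine hcs.trans ?_
  have h2 : ∑ α ∈ range q, (∑ m ∈ (Dv ρ M j).filter (fun m => m ≡ α [MOD q]),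
        ph q u0 v0 T K B g (m * x) (M / m * t)) ^ 2 ≤
      ∑ α ∈ range q, (1 / 4) * (∑ m ∈ (Dv ρ M j).filter (fun m => m ≡ α [MOD q]),
        g (Real.log M + Real.log t - Real.log m)) ^ 2 :=
    sum_le_sum fun α _ => class_sum hq hqw hM hM1 hρ hK hB hg hx ht
  rw [← mul_sum] at h2
  calc (q : ℝ) * ∑ α ∈ range q, (∑ m ∈ (Dv ρ M j).filter (fun m => m ≡ α [MOD q]),
        ph q u0 v0 T K B g (m * x) (M / m * t)) ^ 2
      ≤ q * ((1 / 4) * ∑ α ∈ range q, (∑ m ∈ (Dv ρ M j).filter (fun m => m ≡ α [MOD q]),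
        g (Real.log M + Real.log t - Real.log m)) ^ 2) :=
        mul_le_mul_of_nonneg_left h2 (Nat.cast_nonneg q)
    _ = _ := by ring

/-- the bound of `DD` for one `M` and one window -/
theorem DD_one {W : ℕ → ℝ} {q u0 v0 w y M K B T j : ℕ} {ρ CD : ℝ} {g : ℝ → ℝ} (hW : ∀ n, 0 ≤ W n)
    (hCD : 0 < CD) (hq : 1 ≤ q)
    (hqw : q ≤ w) (hM : M ∣ PP w y) (hM1 : 1 ≤ M) (hρ : 1 < ρ) (hK : 1 ≤ K) (hB : 1 ≤ B)
    (hg : ∀ s, Real.log ((K : ℝ) * (B : ℝ)) < s → g s = 0)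
    (hU : ∀ α : ℕ,
      ∑ x ∈ Icc 1 ⌊(T : ℝ) / ρ ^ (j + 1)⌋₊, ∑ t ∈ Icc 1 ⌊((K * B : ℕ) : ℝ) * ρ ^ (j + 1) / M⌋₊,
        rg w y x * rg w y t * W (M * x * t) *
        (∑ m ∈ (Dv ρ M j).filter (fun m => m ≡ α [MOD q]), g (Real.log M + Real.log t - Real.log m)) ^ 2 ≤
        CD * ((M : ℝ) / Nat.totient M) * VW w y ^ 2 *
          ((⌊(T : ℝ) / ρ ^ (j + 1)⌋₊ : ℝ) * ⌊((K * B : ℕ) : ℝ) * ρ ^ (j + 1) / M⌋₊) *
          ((∫ s : ℝ, (∑ m ∈ (Dv ρ M j).filter (fun m => m ≡ α [MOD q]), g (s - Real.log m)) ^ 2) +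
            1 / Real.log B))
    (r5 : (⌊(T : ℝ) / ρ ^ (j + 1)⌋₊ : ℝ) * ⌊((K * B : ℕ) : ℝ) * ρ ^ (j + 1) / M⌋₊ ≤ T * (K * B) / M) :
    DD (ph q u0 v0 T K B g) W w y ρ T (K * B) M j ≤
      CD * K * q * ((T : ℝ) * B) * (VW w y ^ 2 * ∑ α ∈ range q, (1 / (Nat.totient M : ℝ)) *
        ((∫ s : ℝ, (∑ m ∈ (Dv ρ M j).filter (fun m => m ≡ α [MOD q]), g (s - Real.log m)) ^ 2) +
            1 / Real.log B)) := by
  classical
  set X := ⌊(T : ℝ) / ρ ^ (j + 1)⌋₊ with hX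
  set Y := ⌊((K * B : ℕ) : ℝ) * ρ ^ (j + 1) / M⌋₊ with hY
  have hB1 : (1 : ℝ) ≤ B := by exact_mod_cast hB
  have hlogB : 0 ≤ Real.log B := Real.log_nonneg hB1
  -- step 1
  have s1 : DD (ph q u0 v0 T K B g) W w y ρ T (K * B) M j ≤
      ∑ x ∈ Icc 1 X, ∑ t ∈ Icc 1 Y, rg w y x * rg w y t * W (M * x * t) *
        ((q / 4) * ∑ α ∈ range q, (∑ m ∈ (Dv ρ M j).filter (fun m => m ≡ α [MOD q]),
        g (Real.log M + Real.log t - Real.log m)) ^ 2) := by
    unfold DD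
    refine sum_le_sum fun x hx => sum_le_sum fun t ht => ?_
    apply mul_le_mul_of_nonneg_left
    · exact window_sum hq hqw hM hM1 hρ hK hB hg hx (mem_Icc.1 ht).1
    · exact mul_nonneg (mul_nonneg (rg_nonneg _ _ _) (rg_nonneg _ _ _)) (hW _)
  refine s1.trans ?_
  -- step 2: interchange
  have s2 : ∑ x ∈ Icc 1 X, ∑ t ∈ Icc 1 Y, rg w y x * rg w y t * W (M * x * t) *
        ((q / 4) * ∑ α ∈ range q, (∑ m ∈ (Dv ρ M j).filter (fun m => m ≡ α [MOD q]),
        g (Real.log M + Real.log t - Real.log m)) ^ 2) =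
      (q / 4) * ∑ α ∈ range q, ∑ x ∈ Icc 1 X, ∑ t ∈ Icc 1 Y,
        rg w y x * rg w y t * W (M * x * t) *
        (∑ m ∈ (Dv ρ M j).filter (fun m => m ≡ α [MOD q]),
        g (Real.log M + Real.log t - Real.log m)) ^ 2 := by
    rw [mul_sum]
    simp only [mul_sum]
    rw [sum_comm (s := range q)]
    refine sum_congr rfl fun x _ => ?_
    rw [sum_comm (s := range q)]
    refine sum_congr rfl fun t _ => ?_
    refine sum_congr rfl fun α _ => ?_
    ring
  rw [s2]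
  have s3 : ∀ α ∈ range q, ∑ x ∈ Icc 1 X, ∑ t ∈ Icc 1 Y,
        rg w y x * rg w y t * W (M * x * t) *
        (∑ m ∈ (Dv ρ M j).filter (fun m => m ≡ α [MOD q]),
        g (Real.log M + Real.log t - Real.log m)) ^ 2 ≤
      CD * (T * (K * B)) * (VW w y ^ 2 * (1 / Nat.totient M)) *
        ((∫ s : ℝ, (∑ m ∈ (Dv ρ M j).filter (fun m => m ≡ α [MOD q]), g (s - Real.log m)) ^ 2) +
            1 / Real.log B) := by
    intro α _
    have hb := box_le (a := CD) (V := VW w y ^ 2) hM1 hCD.le (by positivity) r5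
    have hI : 0 ≤ (∫ s : ℝ, (∑ m ∈ (Dv ρ M j).filter (fun m => m ≡ α [MOD q]), g (s - Real.log m)) ^ 2) +
            1 / Real.log B := by
      apply add_nonneg
      · exact integral_nonneg fun s => sq_nonneg _
      · positivity
    exact (hU α).trans (mul_le_mul_of_nonneg_right hb hI)
  have hSn : ∀ α ∈ range q, 0 ≤ CD * (T * (K * B)) * (VW w y ^ 2 * (1 / Nat.totient M)) *
        ((∫ s : ℝ, (∑ m ∈ (Dv ρ M j).filter (fun m => m ≡ α [MOD q]), g (s - Real.log m)) ^ 2) +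
            1 / Real.log B) := by
    intro α _
    apply mul_nonneg
    · positivity
    · apply add_nonneg
      · exact integral_nonneg fun s => sq_nonneg _
      · positivity
  calc (q / 4 : ℝ) * ∑ α ∈ range q, ∑ x ∈ Icc 1 X, ∑ t ∈ Icc 1 Y,
        rg w y x * rg w y t * W (M * x * t) *
        (∑ m ∈ (Dv ρ M j).filter (fun m => m ≡ α [MOD q]),
        g (Real.log M + Real.log t - Real.log m)) ^ 2
      ≤ (q / 4 : ℝ) * ∑ α ∈ range q, CD * (T * (K * B)) * (VW w y ^ 2 * (1 / Nat.totient M)) *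
        ((∫ s : ℝ, (∑ m ∈ (Dv ρ M j).filter (fun m => m ≡ α [MOD q]), g (s - Real.log m)) ^ 2) +
            1 / Real.log B) := mul_le_mul_of_nonneg_left (sum_le_sum s3) (by positivity)
    _ ≤ (q : ℝ) * ∑ α ∈ range q, CD * (T * (K * B)) * (VW w y ^ 2 * (1 / Nat.totient M)) *
        ((∫ s : ℝ, (∑ m ∈ (Dv ρ M j).filter (fun m => m ≡ α [MOD q]), g (s - Real.log m)) ^ 2) +
            1 / Real.log B) := by
        apply mul_le_mul_of_nonneg_right _ (sum_nonneg hSn)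
        have : (0 : ℝ) ≤ q := Nat.cast_nonneg q
        linarith
    _ = _ := by
        simp only [mul_sum]
        refine sum_congr rfl fun α _ => ?_
        ring

theorem lhs_eq (q u0 v0 T K B : ℕ) (g : ℝ → ℝ) (E : ℕ → ℝ) :
    ∑ u ∈ (Icc 1 T).filter (fun u => u ≡ u0 [MOD q]), ∑ v ∈ (Icc 1 (K * B)).filter (fun v => v ≡ v0 [MOD q]),
      g (Real.log v) * E (u * v) =
    2 * ∑ u ∈ Icc 1 T, ∑ v ∈ Icc 1 (K * B), ph q u0 v0 T K B g u v * E (u * v) := by
  rw [sum_filter, mul_sum]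
  refine sum_congr rfl fun u hu => ?_
  by_cases h : u ≡ u0 [MOD q]
  · rw [if_pos h, sum_filter, mul_sum]
    refine sum_congr rfl fun v hv => ?_
    by_cases h2 : v ≡ v0 [MOD q]
    · unfold ph
      rw [if_pos h2, if_pos ⟨(mem_Icc.1 hu).2, h, h2, (mem_Icc.1 hv).2⟩]
      ring
    · unfold ph
      rw [if_neg h2, if_neg (fun h3 => h2 h3.2.2.1)]
      ring
  · rw [if_neg h, mul_sum]
    symm
    apply sum_eq_zero
    intro v _
    unfold ph
    rw [if_neg (fun h3 => h h3.2.1)]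
    ring

/-- the numbers -/
theorem nums {CD CQ Kr q η x0 W e EK l ll lB a d : ℝ} (hCD : 0 < CD) (hCQ : 0 < CQ) (hKr : 0 < Kr)
    (hq : 1 ≤ q) (hx0 : 0 < x0) (hW : W = q ^ 2 * CD * Kr * (CQ + 1))
    (hη1 : η ≤ 1 / x0) (hη2 : η ≤ e ^ 2 / (W * x0)) (hEK0 : 0 ≤ EK) (hEK : EK ≤ x0 * l)
    (hll : 0 ≤ ll) (hlη : l * (2 + ll) ≤ η) (hlB : 1 ≤ lB) (ha0 : 0 ≤ a)
    (ha : a ≤ x0 * l) (hd : d = CD * Kr * q * (q * (CQ * (1 + ll)) + q * (EK * (1 / lB)))) :
    a * d ≤ e ^ 2 := by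
  have hW0 : 0 < W := by rw [hW]; positivity
  have hX1 : x0 * η ≤ 1 := by
    rw [le_div_iff₀ hx0] at hη1
    linarith
  have hX2 : W * (x0 * η) ≤ e ^ 2 := by
    rw [le_div_iff₀ (by positivity)] at hη2
    linarith
  have h1 : ∀ z, 0 ≤ z → z ≤ x0 * l → z * (2 + ll) ≤ x0 * η := by
    intro z hz0 hz
    calc z * (2 + ll) ≤ x0 * l * (2 + ll) := mul_le_mul_of_nonneg_right hz (by linarith)
      _ = x0 * (l * (2 + ll)) := by ring
      _ ≤ x0 * η := mul_le_mul_of_nonneg_left hlη hx0.le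
  have h1a := h1 a ha0 ha
  have h1E := h1 EK hEK0 hEK
  have hη0 : 0 ≤ x0 * η := le_trans (by positivity) h1a
  have h2a : a ≤ x0 * η := le_trans (by nlinarith) h1a
  have h2E : EK ≤ x0 * η := le_trans (by nlinarith) h1E
  have h3 : a * (1 + ll) ≤ x0 * η := le_trans (by nlinarith) h1a
  have h4 : EK * (1 / lB) ≤ EK := by
    apply mul_le_of_le_one_right hEK0
    rw [div_le_one (by linarith)]
    exact hlB
  have h5 : a * EK ≤ x0 * η := by
    calc a * EK ≤ (x0 * η) * 1 := mul_le_mul h2a (h2E.trans hX1) hEK0 hη0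
      _ = _ := mul_one _
  have h6 : a * (EK * (1 / lB)) ≤ x0 * η := (mul_le_mul_of_nonneg_left h4 ha0).trans h5
  have e1 : a * d = q ^ 2 * CD * Kr * (CQ * (a * (1 + ll)) + a * (EK * (1 / lB))) := by
    rw [hd]
    ring
  rw [e1]
  have h7 : CQ * (a * (1 + ll)) + a * (EK * (1 / lB)) ≤ (CQ + 1) * (x0 * η) := by
    have := mul_le_mul_of_nonneg_left h3 hCQ.le
    linarith
  calc q ^ 2 * CD * Kr * (CQ * (a * (1 + ll)) + a * (EK * (1 / lB)))
      ≤ q ^ 2 * CD * Kr * ((CQ + 1) * (x0 * η)) := mul_le_mul_of_nonneg_left h7 (by positivity)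
    _ = W * (x0 * η) := by rw [hW]; ring
    _ ≤ e ^ 2 := hX2

theorem t_B2 (hCORE : S_CORE) (hRNG : S_RNG) (hDS : Pool.Agent.N728.QG.S_DS)
    (hQB : Pool.Agent.N728.QG.S_QB) (hEK : S_EK) (hMER : S_MER) : Pool.Agent.N728.QG.S_B2 := by
  classical
  intro C0 ε k₀ D K K2 q hC0 hε hD hK hq
  obtain ⟨CC, hCC, kC, BC, hC⟩ := hCORE C0 k₀ D K hC0 hD hK
  obtain ⟨kR, BR, hR⟩ := hRNG D K hD hK
  obtain ⟨CD, hCD, kD, BD, hDs⟩ := hDS C0 k₀ (4 * D) (4 * K) hC0 (by omega)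
  obtain ⟨CQ, hCQ, wQ, hQ⟩ := hQB q (100 * (K2 + 1)) (4 * K) hq
  obtain ⟨CE, hCE, hE⟩ := hEK
  obtain ⟨k, hk⟩ : ∃ k, k = 1 + kC + kR + kD := ⟨_, rfl⟩
  have hCC0 : 0 < CC := by linarith
  have hKr : (0 : ℝ) < K := by exact_mod_cast hK
  have hKr1 : (1 : ℝ) ≤ K := by exact_mod_cast hK
  obtain ⟨δ, hδ⟩ : ∃ δ : ℝ, δ = min 1 (ε / (12 * CC)) := ⟨_, rfl⟩
  have hδ0 : 0 < δ := by rw [hδ]; exact lt_min one_pos (by positivity)
  have hδ1 : δ ≤ 1 := by rw [hδ]; exact min_le_left _ _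
  have hδ2 : δ ≤ ε / (12 * CC) := by rw [hδ]; exact min_le_right _ _
  obtain ⟨x0, hx0⟩ : ∃ x0 : ℝ, x0 = (CC + CE) * δ ^ (-(1 / 2) : ℝ) := ⟨_, rfl⟩
  have hx00 : 0 < x0 := by rw [hx0]; positivity
  obtain ⟨e, he⟩ : ∃ e : ℝ, e = ε / 4 := ⟨_, rfl⟩
  have he0 : 0 < e := by rw [he]; positivity
  have hq1 : (1 : ℝ) ≤ q := by exact_mod_cast hq
  obtain ⟨Wc, hWc⟩ : ∃ W : ℝ, W = (q : ℝ) ^ 2 * CD * K * (CQ + 1) := ⟨_, rfl⟩
  have hWc0 : 0 < Wc := by rw [hWc]; positivity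
  obtain ⟨η, hη⟩ : ∃ η : ℝ, η = min δ (min (1 / x0) (e ^ 2 / (Wc * x0))) := ⟨_, rfl⟩
  have hη0 : 0 < η := by
    rw [hη]
    exact lt_min hδ0 (lt_min (by positivity) (by positivity))
  have hη1 : η ≤ δ := by rw [hη]; exact min_le_left _ _
  have hη2 : η ≤ 1 / x0 := by rw [hη]; exact (min_le_right _ _).trans (min_le_left _ _)
  have hη3 : η ≤ e ^ 2 / (Wc * x0) := by rw [hη]; exact (min_le_right _ _).trans (min_le_right _ _)
  obtain ⟨B1, hB1⟩ := params k K2 (q + wQ + 2 + ⌈1 / δ⌉₊) CC η (max 1 (1 / δ)) hCC0.le hη0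
  refine ⟨BC + BR + BD + B1 + 60, ?_⟩
  intro B hB W E hEW hU0 hU1 T u0 v0 g L hT hTB hL1 hL g2 gL gs gi
  have hWn : ∀ n, 0 ≤ W n := fun n => (abs_nonneg _).trans (hEW n)
  obtain ⟨w, y, M0, hw0, hwy, hM0, hyk, hM0k, hlyw, hlBw, hs, hexp, hEKb, hlw1, hly1, hA0, hlBk⟩ :=
    hB1 B (by omega)
  have hB60 : 60 ≤ B := by omega
  have hBr : (60 : ℝ) ≤ B := by exact_mod_cast hB60
  have hBpos : (0 : ℝ) < B := lt_of_lt_of_le (by norm_num) hBr
  have hlogB1 : 1 ≤ Real.log B := (le_max_left _ _).trans hA0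
  have hlogBδ : 1 / Real.log B ≤ δ := by
    rw [div_le_iff₀ (by linarith)]
    have h1 : 1 / δ ≤ Real.log B := (le_max_right _ _).trans hA0
    rw [div_le_iff₀ hδ0] at h1
    linarith
  have hρ1 : (1 : ℝ) < 1 + δ := by linarith
  have hρ2 : (1 : ℝ) + δ ≤ 2 := by linarith
  have hw2 : 2 ≤ w := by omega
  have hy2 : 2 ≤ y := by omega
  -- powers
  have pw : ∀ {n : ℕ} (k' : ℕ), 1 ≤ n → k' ≤ k → n ^ k ≤ B → n ^ k' ≤ B := by
    intro n k' hn hk' h
    exact (Nat.pow_le_pow_right hn hk').trans h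
  -- facts on g
  have hlogK : Real.log ((K : ℝ) * (B : ℝ)) ≤ Real.log ((B : ℝ) / 4) + (4 * K : ℕ) := by
    have h1 : (K : ℝ) * (B : ℝ) = (B / 4) * (4 * K) := by ring
    rw [h1, Real.log_mul (by positivity) (by positivity)]
    have h2 : Real.log (4 * (K : ℝ)) ≤ 4 * (K : ℝ) - 1 := Real.log_le_sub_one_of_pos (by positivity)
    push_cast
    linarith
  have gsK : ∀ s, Real.log ((K : ℝ) * (B : ℝ)) < s → g s = 0 := by
    intro s hs'
    apply gs
    intro h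
    linarith [h.2]
  have gsS : ∀ s, ¬ (Real.log ((B : ℝ) / 4) ≤ s ∧ s ≤ Real.log ((B : ℝ) / 4) + (4 * K : ℕ)) → g s = 0 := by
    intro s hs'
    apply gs
    intro h
    exact hs' ⟨h.1, h.2.trans hlogK⟩
  -- the orbit bound
  have hO := hC B (by omega) W E hEW hU0 hU1 T w y M0 (1 + δ) (ph q u0 v0 T K B g) hT hTB hw2 hwy
    (pw kC (by omega) (by omega) hyk) hM0 (pw kC hM0 (by omega) hM0k) (by linarith) hρ2
    (by
      intro u v
      unfold ph
      split_ifs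
      · have := g2 (Real.log v)
        rw [abs_div, abs_of_pos (by norm_num : (0 : ℝ) < 2)]
        linarith
      · rw [abs_zero]; norm_num)
    (by
      intro u v _ hv
      unfold ph
      rw [if_neg]
      intro h
      omega)
  have hw1δ : 1 / (w : ℝ) ≤ δ := by
    have h1 : 1 / δ ≤ w := (Nat.le_ceil _).trans (by exact_mod_cast (by omega : ⌈1 / δ⌉₊ ≤ w))
    have hw0' : (0 : ℝ) < w := by exact_mod_cast (by omega : 0 < w)
    rw [div_le_iff₀ hδ0] at h1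
    rw [div_le_iff₀ hw0']
    linarith
  have hbad2 : CC * ((T : ℝ) * B) * (1 / w + ((1 + δ) - 1) +
      Real.log y ^ CC * Real.exp (-(Real.log M0 / (2 * Real.log y)))) ≤
      3 * CC * δ * ((B : ℝ) * T) := by
    have h1 : 1 / (w : ℝ) + ((1 + δ) - 1) + Real.log y ^ CC * Real.exp (-(Real.log M0 / (2 * Real.log y))) ≤
        3 * δ := by linarith
    have h2 : 0 ≤ CC * ((T : ℝ) * B) := by positivity
    have h3 := mul_le_mul_of_nonneg_left h1 h2
    linarith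
  -- the facts on `M`
  have hMf : ∀ M ∈ (PP w y).divisors.filter (fun M => M ≤ M0), M ∣ PP w y ∧ 1 ≤ M ∧ M ≤ M0 := by
    intro M hM
    rw [mem_filter, Nat.mem_divisors] at hM
    exact ⟨hM.1.1, Nat.pos_of_dvd_of_pos hM.1.1 (PP_pos w y), hM.2⟩
  obtain ⟨S, hS⟩ : ∃ S : ℝ, S = (B : ℝ) * T := ⟨_, rfl⟩
  have hS0 : 0 ≤ S := by rw [hS]; positivity
  obtain ⟨l, hl⟩ : ∃ l : ℝ, l = Real.log w ^ (3 / 5 : ℝ) * Real.log y ^ (-(1 / 12) : ℝ) := ⟨_, rfl⟩
  have hl0 : 0 ≤ l := by rw [hl]; positivity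
  obtain ⟨EK, hEKd⟩ : ∃ EK : ℝ, EK = CE * δ ^ (-(1 / 2) : ℝ) * l := ⟨_, rfl⟩
  have hEK0 : 0 ≤ EK := by rw [hEKd]; positivity
  have hEKx : EK ≤ x0 * l := by
    rw [hEKd, hx0]
    apply mul_le_mul_of_nonneg_right _ hl0
    apply mul_le_mul_of_nonneg_right _ (by positivity)
    linarith
  have hEKs : VW w y ^ 2 * ∑ M ∈ (PP w y).divisors, ((Wn (1 + δ) M).card : ℝ) / (Nat.totient M : ℝ) ≤ EK := by
    refine (hE w y (1 + δ) hw2 hwy hρ1 hρ2).trans (le_of_eq ?_)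
    rw [hEKd, hl, add_sub_cancel_left]
    ring
  have hEKs' : VW w y ^ 2 * ∑ M ∈ (PP w y).divisors, ∑ j ∈ Wn (1 + δ) M, (1 / (Nat.totient M : ℝ)) ≤ EK := by
    refine le_trans (le_of_eq ?_) hEKs
    congr 1
    refine sum_congr rfl fun M _ => ?_
    rw [sum_const, nsmul_eq_mul]
    ring
  -- AA
  have hAA : CC * ((T : ℝ) * B) * (((1 + δ) - 1) ^ (-(1 / 2) : ℝ) * Real.log w ^ (3 / 5 : ℝ) *
      Real.log y ^ (-(1 / 12) : ℝ)) ≤ (CC * δ ^ (-(1 / 2) : ℝ) * l) * S := by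
    apply le_of_eq
    rw [hS, hl, add_sub_cancel_left]
    ring
  have hax : CC * δ ^ (-(1 / 2) : ℝ) * l ≤ x0 * l := by
    rw [hx0]
    apply mul_le_mul_of_nonneg_right _ hl0
    apply mul_le_mul_of_nonneg_right _ (by positivity)
    linarith
  -- DD
  have hLk : L ^ kD ≤ B := by
    calc L ^ kD ≤ L ^ k := pow_le_pow_right₀ hL1 (by omega)
      _ ≤ (Real.log B ^ K2) ^ k := pow_le_pow_left₀ (by linarith) hL k
      _ = Real.log B ^ (K2 * k) := by rw [pow_mul]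
      _ ≤ B := hlBk
  have hQs : ∀ α : ℕ, VW w y ^ 2 * ∑ M ∈ (PP w y).divisors, ∑ j ∈ Wn (1 + δ) M, (1 / (Nat.totient M : ℝ)) *
      ∫ s : ℝ, (∑ m ∈ (Dv (1 + δ) M j).filter (fun m => m ≡ α [MOD q]), g (s - Real.log m)) ^ 2 ≤
      CQ * (1 + Real.log (Real.log y)) := by
    intro α
    refine hQ w y (by omega) hwy hlyw L (Real.log ((B : ℝ) / 4)) (1 + δ) g α hL1 (hL.trans hlBw) hρ1 hρ2
      g2 gL gsS ?_
    intro s1 s2 hs12
    exact (gi s1 s2 hs12).trans hs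
  have hDD : ∑ M ∈ (PP w y).divisors.filter (fun M => M ≤ M0), ∑ j ∈ Wn (1 + δ) M,
      DD (ph q u0 v0 T K B g) W w y (1 + δ) T (K * B) M j ≤
      (CD * K * q * (q * (CQ * (1 + Real.log (Real.log y))) + q * (EK * (1 / Real.log B)))) * S := by
    have h1 := MJ_sum (w := w) (y := y) (M0 := M0) (ρ := 1 + δ) (R := CD * K * q * ((T : ℝ) * B))
      (f := fun M j => DD (ph q u0 v0 T K B g) W w y (1 + δ) T (K * B) M j)
      (h := fun M j => ∑ α ∈ range q, (1 / (Nat.totient M : ℝ)) *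
        ((∫ s : ℝ, (∑ m ∈ (Dv (1 + δ) M j).filter (fun m => m ≡ α [MOD q]), g (s - Real.log m)) ^ 2) +
            1 / Real.log B)) (by positivity)
      (fun M j => sum_nonneg fun α _ => mul_nonneg (by positivity)
        (add_nonneg (integral_nonneg fun s => sq_nonneg _) (by positivity)))
      (by
        intro M hM j hj
        obtain ⟨hMP, hM1, hMM⟩ := hMf M hM
        obtain ⟨r1, r2, -, r3, r4, r5, -⟩ := hR B (by omega) T M0 M j (1 + δ) hT hTB
          (pw kR hM0 (by omega) hM0k) hM1 hMM hρ1 hρ2 hj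
        refine DD_one hWn hCD hq (by omega) hMP hM1 hρ1 hK (by omega) gsK ?_ r5
        obtain ⟨X, hX⟩ : ∃ X, X = ⌊(T : ℝ) / (1 + δ) ^ (j + 1)⌋₊ := ⟨_, rfl⟩
        obtain ⟨Y, hY⟩ : ∃ Y, Y = ⌊((K * B : ℕ) : ℝ) * (1 + δ) ^ (j + 1) / M⌋₊ := ⟨_, rfl⟩
        rw [← hX] at r1 r2 ⊢
        rw [← hY] at r3 r4 ⊢
        have hB0 : 1 ≤ B := by omega
        have hX0 : 1 ≤ X := by
          rcases Nat.eq_zero_or_pos X with h | h
          · rw [h, Nat.zero_pow (by omega)] at r1; omega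
          · exact h
        have hY0 : 1 ≤ Y := by
          rcases Nat.eq_zero_or_pos Y with h | h
          · rw [h, Nat.zero_pow (by omega)] at r3; omega
          · exact h
        intro α
        refine hDs B (by omega) W hWn (by
            have e8 : 2 * (4 * D) = 8 * D := by ring
            rw [e8]; exact hU1) w y M X Y _ L (Real.log ((B : ℝ) / 4)) g (by omega) hwy
          (pw kD (by omega) (by omega) hyk)
          ((Nat.pow_le_pow_left hMM _).trans (pw kD hM0 (by omega) hM0k)) hMP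
          (r1.trans (Nat.pow_le_pow_right hX0 (by omega)))
          (r2.trans (hTB.trans (Nat.pow_le_pow_right hB0 (by omega))))
          (r3.trans (Nat.pow_le_pow_right hY0 (by omega)))
          (r4.trans (Nat.pow_le_pow_right hB0 (by omega))) ?_ ?_
          hL1 hLk g2 gL gsS
        · have hc1 : ((Dv (1 + δ) M j).filter (fun m => m ≡ α [MOD q])).card ≤ M0 := by
            calc ((Dv (1 + δ) M j).filter (fun m => m ≡ α [MOD q])).card ≤ (Dv (1 + δ) M j).card :=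
                  card_filter_le _ _
              _ ≤ M.divisors.card := by unfold Dv; exact card_filter_le _ _
              _ ≤ M := Nat.card_divisors_le_self M
              _ ≤ M0 := hMM
          exact (Nat.pow_le_pow_left hc1 _).trans (pw kD hM0 (by omega) hM0k)
        · intro m hm
          exact Nat.pos_of_dvd_of_pos (Dv_dvd (mem_filter.1 hm).1) hM1)
    refine h1.trans ?_
    have h2 : VW w y ^ 2 * ∑ M ∈ (PP w y).divisors, ∑ j ∈ Wn (1 + δ) M,
        ∑ α ∈ range q, (1 / (Nat.totient M : ℝ)) *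
        ((∫ s : ℝ, (∑ m ∈ (Dv (1 + δ) M j).filter (fun m => m ≡ α [MOD q]), g (s - Real.log m)) ^ 2) +
            1 / Real.log B) ≤
        q * (CQ * (1 + Real.log (Real.log y))) + q * (EK * (1 / Real.log B)) := by
      have e1 : VW w y ^ 2 * ∑ M ∈ (PP w y).divisors, ∑ j ∈ Wn (1 + δ) M,
          ∑ α ∈ range q, (1 / (Nat.totient M : ℝ)) *
          ((∫ s : ℝ, (∑ m ∈ (Dv (1 + δ) M j).filter (fun m => m ≡ α [MOD q]), g (s - Real.log m)) ^ 2) +
            1 / Real.log B) =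
          ∑ α ∈ range q, ((VW w y ^ 2 * ∑ M ∈ (PP w y).divisors, ∑ j ∈ Wn (1 + δ) M,
            (1 / (Nat.totient M : ℝ)) *
            ∫ s : ℝ, (∑ m ∈ (Dv (1 + δ) M j).filter (fun m => m ≡ α [MOD q]), g (s - Real.log m)) ^ 2) +
            (VW w y ^ 2 * ∑ M ∈ (PP w y).divisors, ∑ j ∈ Wn (1 + δ) M, (1 / (Nat.totient M : ℝ))) *
              (1 / Real.log B)) := by
        simp only [mul_sum, sum_mul, sum_add_distrib, mul_add]
        congr 1
        · rw [sum_comm]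
          refine sum_congr rfl fun M _ => ?_
          rw [sum_comm]
        · rw [sum_comm]
          refine sum_congr rfl fun M _ => ?_
          rw [sum_comm]
          refine sum_congr rfl fun j _ => ?_
          refine sum_congr rfl fun α _ => ?_
          ring
      rw [e1]
      calc _ ≤ ∑ α ∈ range q, (CQ * (1 + Real.log (Real.log y)) + EK * (1 / Real.log B)) := by
            refine sum_le_sum fun α _ => ?_
            exact add_le_add (hQs α) (mul_le_mul_of_nonneg_right hEKs' (by positivity))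
        _ = _ := by
            rw [sum_const, card_range, nsmul_eq_mul]
            ring
    calc CD * K * q * ((T : ℝ) * B) * (VW w y ^ 2 * ∑ M ∈ (PP w y).divisors, ∑ j ∈ Wn (1 + δ) M,
        ∑ α ∈ range q, (1 / (Nat.totient M : ℝ)) *
        ((∫ s : ℝ, (∑ m ∈ (Dv (1 + δ) M j).filter (fun m => m ≡ α [MOD q]), g (s - Real.log m)) ^ 2) +
            1 / Real.log B)) ≤ CD * K * q * ((T : ℝ) * B) *
          (q * (CQ * (1 + Real.log (Real.log y))) + q * (EK * (1 / Real.log B))) :=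
          mul_le_mul_of_nonneg_left h2 (by positivity)
      _ = _ := by rw [hS]; ring
  -- the product
  have hll0 : 0 ≤ Real.log (Real.log y) := Real.log_nonneg hly1
  have had := nums (CD := CD) (CQ := CQ) (Kr := K) (e := e) hCD hCQ hKr hq1 hx00 hWc hη2 hη3 hEK0 hEKx
    hll0 (by rw [hl]; exact hEKb) hlogB1 (by positivity) hax rfl
  have hcomb := sqrt_comb hAA hDD hS0 (by positivity) had he0.le
  rw [lhs_eq q u0 v0 T K B g E, abs_mul, abs_of_pos (by norm_num : (0 : ℝ) < 2)]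
  calc 2 * |∑ u ∈ Icc 1 T, ∑ v ∈ Icc 1 (K * B), ph q u0 v0 T K B g u v * E (u * v)|
      ≤ 2 * (3 * CC * δ * ((B : ℝ) * T) + e * S) := by
        apply mul_le_mul_of_nonneg_left _ (by norm_num)
        exact hO.trans (add_le_add hbad2 hcomb)
    _ ≤ ε * ((B : ℝ) * T) := by
        rw [hS, he]
        have h1 : 2 * (3 * CC * δ * ((B : ℝ) * T) + ε / 4 * ((B : ℝ) * T)) =
            (6 * CC * δ + ε / 2) * ((B : ℝ) * T) := by
          ring
        rw [h1]
        apply mul_le_mul_of_nonneg_right _ (by positivity)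
        rw [le_div_iff₀ (by positivity)] at hδ2
        linarith

end

end Pool.Agent.N271.QG
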